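import Mathlib

/-! # Fourier analysis on a finite abelian group: Parseval and translates of a set -/

set_option linter.unusedSectionVars false

namespace Pool.Agent.Q299.Cay

open Finset

variable {G : Type*} [AddCommGroup G] [Fintype G] [DecidableEq G]

/-- Fourier transform (without conjugation) of a real function. -/
noncomputable def ft (f : G → ℝ) (χ : AddChar G ℂ) : ℂ := ∑ g, (f g : ℂ) * χ g

lemma parseval (f : G → ℝ) :
    ∑ χ : AddChar G ℂ, ‖ft f χ‖ ^ 2 = (Fintype.card G : ℝ) * ∑ g, f g ^ 2 := by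
  have h1 : ∀ χ : AddChar G ℂ, ((‖ft f χ‖ ^ 2 : ℝ) : ℂ) =
      ∑ g, ∑ g', ((f g : ℂ) * (f g' : ℂ)) * χ (g - g') := by
    intro χ
    have : ((‖ft f χ‖ ^ 2 : ℝ) : ℂ) = ft f χ * (starRingEnd ℂ) (ft f χ) := by
      rw [Complex.mul_conj, Complex.normSq_eq_norm_sq]
    rw [this, ft, map_sum, sum_mul_sum]
    refine sum_congr rfl fun g _ => sum_congr rfl fun g' _ => ?_
    rw [map_mul, Complex.conj_ofReal, ← AddChar.map_neg_eq_conj, sub_eq_add_neg,
      AddChar.map_add_eq_mul]
    ring
  have h2 : ((∑ χ : AddChar G ℂ, ‖ft f χ‖ ^ 2 : ℝ) : ℂ) =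
      (((Fintype.card G : ℝ) * ∑ g, f g ^ 2 : ℝ) : ℂ) := by
    rw [Complex.ofReal_sum, sum_congr rfl fun χ _ => h1 χ, sum_comm]
    have h3 : ∀ g, ∑ χ : AddChar G ℂ, ∑ g', ((f g : ℂ) * (f g' : ℂ)) * χ (g - g') =
        (Fintype.card G : ℂ) * (f g : ℂ) ^ 2 := by
      intro g
      rw [sum_comm]
      have h4 : ∀ g', ∑ χ : AddChar G ℂ, ((f g : ℂ) * (f g' : ℂ)) * χ (g - g') =
          if g' = g then (Fintype.card G : ℂ) * (f g : ℂ) ^ 2 else 0 := by
        intro g'
        rw [← mul_sum, AddChar.sum_apply_eq_ite]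
        by_cases h : g' = g
        · subst h; simp; ring
        · have : g - g' ≠ 0 := sub_ne_zero.mpr (Ne.symm h)
          simp [h, this]
      rw [sum_congr rfl fun g' _ => h4 g']
      simp
    rw [sum_congr rfl fun g _ => h3 g, ← mul_sum]
    push_cast
    ring
  exact_mod_cast h2

lemma ft_sub_translate (f : G → ℝ) (z : G) (χ : AddChar G ℂ) :
    ft (fun g => f g - f (g + z)) χ = ft f χ * (1 - χ (-z)) := by
  unfold ft
  have h1 : ∑ g, (f (g + z) : ℂ) * χ g = (∑ g, (f g : ℂ) * χ g) * χ (-z) := by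
    rw [← Equiv.sum_comp (Equiv.addRight z) (fun g => (f g : ℂ) * χ g), sum_mul]
    refine sum_congr rfl fun g _ => ?_
    simp only [Equiv.coe_addRight]
    rw [mul_assoc, ← AddChar.map_add_eq_mul]
    congr 2
    abel
  push_cast
  simp only [sub_mul, sum_sub_distrib]
  rw [h1]
  ring

lemma norm_one_sub_neg (χ : AddChar G ℂ) (z : G) : ‖1 - χ (-z)‖ = ‖1 - χ z‖ := by
  rw [AddChar.map_neg_eq_conj]
  have : (1 : ℂ) - (starRingEnd ℂ) (χ z) = (starRingEnd ℂ) (1 - χ z) := by simp
  rw [this, Complex.norm_conj]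

/-- Number of elements of `A` which leave `A` when translated by `z`. -/
def out (A : Finset G) (z : G) : ℕ := (A.filter fun g => g + z ∉ A).card

lemma out_le (A : Finset G) (z : G) : out A z ≤ A.card := card_filter_le _ _

lemma out_add (A : Finset G) (z w : G) : out A (z + w) ≤ out A z + out A w := by
  unfold out
  have h : (A.filter fun g => g + (z + w) ∉ A) ⊆
      (A.filter fun g => g + z ∉ A) ∪ ((A.filter fun g => g + w ∉ A).image fun g => g - z) := by
    intro g hg
    rw [mem_filter] at hg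
    rw [mem_union, mem_filter, mem_image]
    by_cases h : g + z ∈ A
    · right
      refine ⟨g + z, ?_, by abel⟩
      rw [mem_filter]
      refine ⟨h, ?_⟩
      rw [add_assoc]
      exact hg.2
    · left
      exact ⟨hg.1, h⟩
  exact (card_le_card h).trans ((card_union_le _ _).trans (Nat.add_le_add_left card_image_le _))

lemma out_zero (A : Finset G) : out A 0 = 0 := by
  unfold out
  rw [card_eq_zero, filter_eq_empty_iff]
  intro g hg
  simpa using hg

lemma out_nsmul (A : Finset G) (m : ℕ) (z : G) : out A (m • z) ≤ m * out A z := by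
  induction m with
  | zero => simp [out_zero]
  | succ m ih =>
    rw [succ_nsmul]
    refine (out_add A _ _).trans ?_
    rw [Nat.succ_mul]
    omega

/-- as many elements enter as leave. -/
lemma card_in_eq (A : Finset G) (z : G) :
    (univ.filter fun g => g ∉ A ∧ g + z ∈ A).card = out A z := by
  have h1 : (univ.filter fun g => g + z ∈ A).card = A.card := by
    refine card_bij (fun g _ => g + z) (fun g hg => (mem_filter.mp hg).2)
      (fun g _ g' _ h => add_right_cancel h) (fun g hg => ⟨g - z, ?_, by abel⟩)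
    rw [mem_filter]
    refine ⟨mem_univ _, ?_⟩
    rw [sub_add_cancel]
    exact hg
  have h2 : (univ.filter fun g => g + z ∈ A).card =
      (univ.filter fun g => g ∈ A ∧ g + z ∈ A).card +
      (univ.filter fun g => g ∉ A ∧ g + z ∈ A).card := by
    rw [← card_union_of_disjoint]
    · congr 1
      ext g
      simp only [mem_filter, mem_univ, true_and, mem_union]
      tauto
    · rw [disjoint_filter]
      tauto
  have h3 : A.card = (univ.filter fun g => g ∈ A ∧ g + z ∈ A).card + out A z := by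
    unfold out
    rw [← card_union_of_disjoint]
    · congr 1
      ext g
      simp only [mem_filter, mem_univ, true_and, mem_union]
      tauto
    · rw [disjoint_left]
      intro g hg hg'
      rw [mem_filter] at hg hg'
      exact hg'.2 hg.2.2
  omega

/-- Indicator. -/
noncomputable def ind (A : Finset G) : G → ℝ := fun g => if g ∈ A then 1 else 0

lemma sum_sq_diff (A : Finset G) (z : G) :
    ∑ g : G, (ind A g - ind A (g + z)) ^ 2 = 2 * (out A z : ℝ) := by
  have h1 : ∀ g : G, (ind A g - ind A (g + z)) ^ 2 =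
      (if g ∈ A ∧ g + z ∉ A then (1 : ℝ) else 0) + (if g ∉ A ∧ g + z ∈ A then 1 else 0) := by
    intro g
    unfold ind
    by_cases h1 : g ∈ A <;> by_cases h2 : g + z ∈ A <;> simp [h1, h2]
  rw [sum_congr rfl fun g _ => h1 g, sum_add_distrib]
  have h2 : ∑ g : G, (if g ∈ A ∧ g + z ∉ A then (1 : ℝ) else 0) = out A z := by
    rw [sum_boole]
    unfold out
    congr 2
    ext g
    simp
  have h3 : ∑ g : G, (if g ∉ A ∧ g + z ∈ A then (1 : ℝ) else 0) = out A z := by
    rw [sum_boole, card_in_eq]
  rw [h2, h3]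
  ring

lemma parseval_translate (A : Finset G) (z : G) :
    ∑ χ : AddChar G ℂ, ‖ft (ind A) χ‖ ^ 2 * ‖1 - χ z‖ ^ 2 =
      (Fintype.card G : ℝ) * (2 * out A z) := by
  rw [← sum_sq_diff A z, ← parseval]
  refine sum_congr rfl fun χ _ => ?_
  have := ft_sub_translate (ind A) z χ
  rw [this, norm_mul, mul_pow, norm_one_sub_neg]

lemma parseval_ind (A : Finset G) :
    ∑ χ : AddChar G ℂ, ‖ft (ind A) χ‖ ^ 2 = (Fintype.card G : ℝ) * A.card := by
  rw [parseval]
  congr 1
  have h : ∀ g : G, ind A g ^ 2 = (if g ∈ A then (1 : ℝ) else 0) := by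
    intro g
    unfold ind
    split_ifs <;> simp
  rw [sum_congr rfl fun g _ => h g, sum_boole]
  congr 2
  ext g
  simp

lemma ft_ind_zero (A : Finset G) : ‖ft (ind A) (0 : AddChar G ℂ)‖ ^ 2 = (A.card : ℝ) ^ 2 := by
  have h0 : ∑ g : G, ind A g = (A.card : ℝ) := by
    unfold ind
    rw [sum_boole]
    congr 2
    ext g
    simp
  have : ft (ind A) (0 : AddChar G ℂ) = (A.card : ℂ) := by
    unfold ft
    simp only [AddChar.zero_apply, mul_one]
    rw [← Complex.ofReal_sum, h0]
    simp
  rw [this]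
  simp

end Pool.Agent.Q299.Cay
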