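import Mathlib
import Pool.Agent.Q299.Cay.Fourier

/-! # Dyadic kernel and the deterministic isoperimetric bound -/

set_option linter.unusedSectionVars false

namespace Pool.Agent.Q299.Cay

open Finset

/-- `ρ = 1/√2`. -/
noncomputable def rho : ℝ := (√2)⁻¹

lemma rho_pos : 0 < rho := by unfold rho; positivity

lemma rho_sq : rho ^ 2 = 1 / 2 := by
  unfold rho
  rw [inv_pow, Real.sq_sqrt (by norm_num)]
  norm_num

lemma rho_lt : rho < 0.7072 := by
  have := rho_sq
  have := rho_pos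
  nlinarith

lemma lt_rho : 0.7071 < rho := by
  have := rho_sq
  have := rho_pos
  nlinarith

/-- The dyadic sum. -/
noncomputable def dsum (J : ℕ) (y : ℝ) : ℝ := ∑ j ∈ range J, rho ^ j * min 1 (2 ^ j * y)

lemma dsum_succ (J : ℕ) (y : ℝ) : dsum (J + 1) y = min 1 y + rho * dsum J (2 * y) := by
  unfold dsum
  rw [sum_range_succ', mul_sum, add_comm]
  congr 1
  · simp
  · refine sum_congr rfl fun j _ => ?_
    rw [pow_succ, pow_succ]
    have : (2 : ℝ) ^ j * 2 * y = 2 ^ j * (2 * y) := by ring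
    rw [this]
    ring

lemma dsum_bound (J : ℕ) : ∀ y : ℝ, 0 ≤ y → dsum J y ≤ 7 / 2 ∧
    (y ≤ 1 → dsum J y ≤ 6 * √y - 5 / 2 * y) := by
  induction J with
  | zero =>
    intro y hy
    refine ⟨by simp [dsum]; norm_num, fun h1 => ?_⟩
    have h0 : dsum 0 y = 0 := by simp [dsum]
    rw [h0]
    have h2 : y ≤ √y := Real.le_sqrt_of_sq_le (by nlinarith)
    nlinarith [Real.sqrt_nonneg y]
  | succ J ih =>
    intro y hy
    rw [dsum_succ]
    have hr := rho_pos
    have hr1 := rho_lt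
    have hr2 := lt_rho
    have hr3 := rho_sq
    obtain ⟨h1, h2⟩ := ih (2 * y) (by linarith)
    have h3 : min 1 y ≤ 1 := min_le_left _ _
    have h3' : min 1 y ≤ y := min_le_right _ _
    refine ⟨by nlinarith, fun hy1 => ?_⟩
    have hs := Real.sqrt_nonneg y
    have hss := Real.sq_sqrt hy
    by_cases hy2 : 2 * y ≤ 1
    · have h4 := h2 hy2
      have h5 : √(2 * y) * rho = √y := by
        unfold rho
        rw [Real.sqrt_mul (by norm_num)]
        field_simp
      nlinarith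
    · push Not at hy2
      have h6 : 0.7071 < √y := by
        rw [Real.lt_sqrt (by norm_num)]
        nlinarith
      have h7 : √y ≤ 1 := by
        rw [Real.sqrt_le_one]
        exact hy1
      nlinarith

lemma dsum_le {y : ℝ} (hy : 0 ≤ y) (hy1 : y ≤ 1) (J : ℕ) : dsum J y ≤ 6 * √y := by
  have := (dsum_bound J y hy).2 hy1
  linarith

/-- The dyadic kernel. -/
noncomputable def kap (J : ℕ) (u : ℂ) : ℝ := ∑ j ∈ range J, rho ^ j * ‖1 - u ^ (2 ^ j)‖ ^ 2

lemma kap_nonneg (J : ℕ) (u : ℂ) : 0 ≤ kap J u :=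
  sum_nonneg fun j _ => mul_nonneg (pow_nonneg rho_pos.le _) (sq_nonneg _)

variable {G : Type*} [AddCommGroup G] [Fintype G] [DecidableEq G]

lemma sum_kap (A : Finset G) (hA : 0 < A.card) (J : ℕ) (z : G) :
    ∑ χ : AddChar G ℂ, ‖ft (ind A) χ‖ ^ 2 * kap J (χ z) ≤
      12 * (Fintype.card G : ℝ) * A.card * √((out A z : ℝ) / A.card) := by
  have hA' : (0 : ℝ) < A.card := by exact_mod_cast hA
  have h1 : ∑ χ : AddChar G ℂ, ‖ft (ind A) χ‖ ^ 2 * kap J (χ z) =
      ∑ j ∈ range J, rho ^ j * ((Fintype.card G : ℝ) * (2 * out A (2 ^ j • z))) := by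
    unfold kap
    simp_rw [mul_sum]
    rw [sum_comm]
    refine sum_congr rfl fun j _ => ?_
    rw [← parseval_translate, mul_sum]
    refine sum_congr rfl fun χ _ => ?_
    rw [AddChar.map_nsmul_eq_pow]
    ring
  rw [h1]
  have h2 : ∀ j ∈ range J, rho ^ j * ((Fintype.card G : ℝ) * (2 * out A (2 ^ j • z))) ≤
      2 * (Fintype.card G : ℝ) * A.card * (rho ^ j * min 1 (2 ^ j * ((out A z : ℝ) / A.card))) := by
    intro j _
    have h3 : (out A (2 ^ j • z) : ℝ) ≤ A.card * min 1 (2 ^ j * ((out A z : ℝ) / A.card)) := by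
      rw [mul_min_of_nonneg _ _ hA'.le]
      refine le_min ?_ ?_
      · rw [mul_one]
        exact_mod_cast out_le A _
      · have := out_nsmul A (2 ^ j) z
        have h4 : (out A (2 ^ j • z) : ℝ) ≤ 2 ^ j * out A z := by exact_mod_cast this
        refine h4.trans (le_of_eq ?_)
        field_simp
    have h5 : 0 ≤ rho ^ j * (Fintype.card G : ℝ) * 2 := by
      have := rho_pos
      positivity
    calc rho ^ j * ((Fintype.card G : ℝ) * (2 * out A (2 ^ j • z)))
        = rho ^ j * (Fintype.card G : ℝ) * 2 * out A (2 ^ j • z) := by ring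
      _ ≤ rho ^ j * (Fintype.card G : ℝ) * 2 *
          (A.card * min 1 (2 ^ j * ((out A z : ℝ) / A.card))) :=
          mul_le_mul_of_nonneg_left h3 h5
      _ = _ := by ring
  refine (sum_le_sum h2).trans ?_
  rw [← mul_sum]
  have h6 : (out A z : ℝ) / A.card ≤ 1 := by
    rw [div_le_one hA']
    exact_mod_cast out_le A z
  have h7 := dsum_le (by positivity : 0 ≤ (out A z : ℝ) / A.card) h6 J
  unfold dsum at h7
  have h8 : 0 ≤ 2 * (Fintype.card G : ℝ) * A.card := by positivity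
  calc _ ≤ 2 * (Fintype.card G : ℝ) * A.card * (6 * √((out A z : ℝ) / A.card)) :=
        mul_le_mul_of_nonneg_left h7 h8
    _ = _ := by ring

/-- If every nontrivial character has large kernel sum, then every set of at most half the size
has large boundary. -/
lemma boundary_bound {k : ℕ} (Z : Fin k → G) (J : ℕ) (w : ℝ) (hw : 0 ≤ w)
    (hZ : ∀ χ : AddChar G ℂ, χ ≠ 0 → w ≤ ∑ i, kap J (χ (Z i)))
    (A : Finset G) (hA : 0 < A.card) (hA2 : 2 * A.card ≤ Fintype.card G) :
    w ^ 2 * A.card ≤ 576 * k * ∑ i, (out A (Z i) : ℝ) := by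
  classical
  have hA' : (0 : ℝ) < A.card := by exact_mod_cast hA
  have hA2' : 2 * (A.card : ℝ) ≤ Fintype.card G := by exact_mod_cast hA2
  have hN : (0 : ℝ) < Fintype.card G := by linarith
  have h1 : ∑ χ : AddChar G ℂ, ‖ft (ind A) χ‖ ^ 2 * ∑ i, kap J (χ (Z i)) ≤
      12 * (Fintype.card G : ℝ) * A.card * ∑ i, √((out A (Z i) : ℝ) / A.card) := by
    simp_rw [mul_sum]
    rw [sum_comm]
    exact sum_le_sum fun i _ => sum_kap A hA J (Z i)
  have h2 : w * ((Fintype.card G : ℝ) * A.card - (A.card : ℝ) ^ 2) ≤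
      ∑ χ : AddChar G ℂ, ‖ft (ind A) χ‖ ^ 2 * ∑ i, kap J (χ (Z i)) := by
    rw [← parseval_ind, ← ft_ind_zero, ← add_sum_erase univ _ (mem_univ (0 : AddChar G ℂ)),
      add_sub_cancel_left, ← add_sum_erase univ _ (mem_univ (0 : AddChar G ℂ)), mul_sum]
    have h3 : 0 ≤ ‖ft (ind A) 0‖ ^ 2 * ∑ i, kap J ((0 : AddChar G ℂ) (Z i)) :=
      mul_nonneg (sq_nonneg _) (sum_nonneg fun i _ => kap_nonneg _ _)
    have h4 : ∑ i ∈ univ.erase (0 : AddChar G ℂ), w * ‖ft (ind A) i‖ ^ 2 ≤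
        ∑ x ∈ univ.erase (0 : AddChar G ℂ), ‖ft (ind A) x‖ ^ 2 * ∑ i, kap J (x (Z i)) := by
      refine sum_le_sum fun χ hχ => ?_
      rw [mul_comm]
      exact mul_le_mul_of_nonneg_left (hZ χ (ne_of_mem_erase hχ)) (sq_nonneg _)
    linarith
  have h3 : w * ((Fintype.card G : ℝ) * A.card / 2) ≤
      w * ((Fintype.card G : ℝ) * A.card - (A.card : ℝ) ^ 2) := by
    refine mul_le_mul_of_nonneg_left ?_ hw
    nlinarith
  have h4 : w * ((Fintype.card G : ℝ) * A.card / 2) ≤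
      12 * (Fintype.card G : ℝ) * A.card * ∑ i, √((out A (Z i) : ℝ) / A.card) :=
    h3.trans (h2.trans h1)
  have h5 : w ≤ 24 * ∑ i, √((out A (Z i) : ℝ) / A.card) := by
    have h6 : 0 < (Fintype.card G : ℝ) * A.card / 2 := by positivity
    refine le_of_mul_le_mul_right ?_ h6
    calc w * ((Fintype.card G : ℝ) * A.card / 2) ≤ _ := h4
      _ = _ := by ring
  have h6 : (∑ i, √((out A (Z i) : ℝ) / A.card)) ^ 2 ≤
      k * ∑ i, ((out A (Z i) : ℝ) / A.card) := by
    have := sq_sum_le_card_mul_sum_sq (s := (univ : Finset (Fin k)))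
      (f := fun i => √((out A (Z i) : ℝ) / A.card))
    rw [card_univ, Fintype.card_fin] at this
    refine this.trans (le_of_eq ?_)
    congr 1
    refine sum_congr rfl fun i _ => ?_
    rw [Real.sq_sqrt (by positivity)]
  have h7 : ∑ i, ((out A (Z i) : ℝ) / A.card) * A.card = ∑ i, (out A (Z i) : ℝ) := by
    refine sum_congr rfl fun i _ => ?_
    field_simp
  have h8 : w ^ 2 ≤ 576 * (k * ∑ i, ((out A (Z i) : ℝ) / A.card)) := by
    have h9 : 0 ≤ ∑ i, √((out A (Z i) : ℝ) / A.card) := sum_nonneg fun i _ => Real.sqrt_nonneg _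
    calc w ^ 2 ≤ (24 * ∑ i, √((out A (Z i) : ℝ) / A.card)) ^ 2 := pow_le_pow_left₀ hw h5 2
      _ = 576 * (∑ i, √((out A (Z i) : ℝ) / A.card)) ^ 2 := by ring
      _ ≤ _ := by linarith
  calc w ^ 2 * A.card ≤ 576 * (k * ∑ i, ((out A (Z i) : ℝ) / A.card)) * A.card :=
        mul_le_mul_of_nonneg_right h8 hA'.le
    _ = 576 * k * ((∑ i, ((out A (Z i) : ℝ) / A.card)) * A.card) := by ring
    _ = _ := by rw [sum_mul, h7]

end Pool.Agent.Q299.Cay
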