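import Mathlib
import Pool.Agent.Q299.Cay.Kernel

/-! # Lower bound for the kernel at roots of unity, and the resulting average -/

set_option linter.unusedSectionVars false

namespace Pool.Agent.Q299.Cay

open Finset

lemma kap_conj (J : ℕ) (u : ℂ) : kap J ((starRingEnd ℂ) u) = kap J u := by
  unfold kap
  refine sum_congr rfl fun j _ => ?_
  have : (1 : ℂ) - (starRingEnd ℂ) u ^ 2 ^ j = (starRingEnd ℂ) (1 - u ^ 2 ^ j) := by simp
  rw [this, Complex.norm_conj]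

lemma norm_one_sub_exp_sq (φ : ℝ) : ‖1 - Complex.exp (φ * Complex.I)‖ ^ 2 = 2 - 2 * Real.cos φ := by
  rw [← Complex.normSq_eq_norm_sq, Complex.exp_mul_I, ← Complex.ofReal_cos, ← Complex.ofReal_sin,
    Complex.normSq_apply]
  simp only [Complex.sub_re, Complex.one_re, Complex.add_re, Complex.ofReal_re, Complex.mul_re,
    Complex.I_re, mul_zero, Complex.ofReal_im, Complex.I_im, mul_one, sub_self, add_zero,
    Complex.sub_im, Complex.one_im, Complex.add_im, Complex.mul_im, zero_add, zero_sub]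
  nlinarith [Real.sin_sq_add_cos_sq φ]

/-- The root of unity `exp (2 π i a / q)`. -/
noncomputable def ru (q a : ℕ) : ℂ := Complex.exp ((2 * Real.pi * (a / q) : ℝ) * Complex.I)

lemma kap_lower {J q a : ℕ} (ha : 1 ≤ a) (h2a : 2 * a ≤ q) (hJ : q ≤ 2 ^ J) :
    √((a : ℝ) / q) ≤ kap J (ru q a) := by
  have hq : 0 < q := by omega
  have hq' : (0 : ℝ) < q := by exact_mod_cast hq
  have ha' : (1 : ℝ) ≤ a := by exact_mod_cast ha
  set j := Nat.log 2 (q / (2 * a)) with hj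
  have hne : q / (2 * a) ≠ 0 := by
    have : 1 ≤ q / (2 * a) := (Nat.one_le_div_iff (by omega)).mpr h2a
    omega
  have h1 : 2 ^ j ≤ q / (2 * a) := Nat.pow_log_le_self 2 hne
  have h2 : q / (2 * a) < 2 ^ (j + 1) := Nat.lt_pow_succ_log_self (by norm_num) _
  have h3 : 2 ^ j * (2 * a) ≤ q := by
    calc 2 ^ j * (2 * a) ≤ q / (2 * a) * (2 * a) := Nat.mul_le_mul_right _ h1
      _ ≤ q := Nat.div_mul_le_self _ _
  have h4 : q < 2 ^ (j + 1) * (2 * a) := by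
    rwa [Nat.div_lt_iff_lt_mul (by omega)] at h2
  have hjJ : j < J := by
    by_contra hcon
    push Not at hcon
    have h5 : 2 ^ J ≤ 2 ^ j := Nat.pow_le_pow_right (by norm_num) hcon
    have h6 : 2 ^ j * 2 ≤ 2 ^ j * (2 * a) := Nat.mul_le_mul_left _ (by omega)
    have h7 : 0 < 2 ^ j := by positivity
    omega
  have h3' : (2 : ℝ) ^ j * (2 * a) ≤ q := by exact_mod_cast h3
  have h4' : (q : ℝ) < 2 ^ (j + 1) * (2 * a) := by exact_mod_cast h4
  have hterm : rho ^ j * ‖1 - (ru q a) ^ (2 ^ j)‖ ^ 2 ≤ kap J (ru q a) := by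
    unfold kap
    exact single_le_sum (f := fun j => rho ^ j * ‖1 - (ru q a) ^ (2 ^ j)‖ ^ 2)
      (fun i _ => mul_nonneg (pow_nonneg rho_pos.le _) (sq_nonneg _)) (mem_range.mpr hjJ)
  have hpow : (ru q a) ^ (2 ^ j) =
      Complex.exp ((2 * Real.pi * (2 ^ j * a / q) : ℝ) * Complex.I) := by
    unfold ru
    rw [← Complex.exp_nat_mul]
    congr 1
    push_cast
    ring
  have hcos : Real.cos (2 * Real.pi * (2 ^ j * a / q)) ≤ 0 := by
    have hx1 : (1 : ℝ) / 4 ≤ 2 ^ j * a / q := by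
      rw [le_div_iff₀ hq']
      rw [pow_succ] at h4'
      linarith
    have hx2 : (2 : ℝ) ^ j * a / q ≤ 1 / 2 := by
      rw [div_le_iff₀ hq']
      linarith
    apply Real.cos_nonpos_of_pi_div_two_le_of_le
    · nlinarith [Real.pi_pos]
    · nlinarith [Real.pi_pos]
  have hnorm : 2 ≤ ‖1 - (ru q a) ^ (2 ^ j)‖ ^ 2 := by
    rw [hpow, norm_one_sub_exp_sq]
    linarith
  have hrho : √((a : ℝ) / q) ≤ rho ^ j := by
    rw [Real.sqrt_le_left (pow_nonneg rho_pos.le _), ← pow_mul, mul_comm j 2, pow_mul, rho_sq,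
      div_le_iff₀ hq', div_pow, one_pow, div_mul_eq_mul_div, one_mul, le_div_iff₀ (by positivity)]
    nlinarith [pow_pos (by norm_num : (0 : ℝ) < 2) j]
  have hr : 0 ≤ rho ^ j := pow_nonneg rho_pos.le _
  nlinarith

lemma ru_sub {q a : ℕ} (hq : 0 < q) (ha : a ≤ q) : ru q (q - a) = (starRingEnd ℂ) (ru q a) := by
  unfold ru
  rw [← Complex.exp_conj]
  have h1 : (starRingEnd ℂ) (((2 * Real.pi * (a / q) : ℝ) : ℂ) * Complex.I) =
      -(((2 * Real.pi * (a / q) : ℝ) : ℂ) * Complex.I) := by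
    rw [map_mul, Complex.conj_ofReal, Complex.conj_I]
    ring
  rw [h1]
  have h2 : (((2 * Real.pi * (((q - a : ℕ) : ℝ) / q) : ℝ) : ℂ) * Complex.I) =
      -(((2 * Real.pi * (a / q) : ℝ) : ℂ) * Complex.I) + 2 * Real.pi * Complex.I := by
    have hq' : (q : ℂ) ≠ 0 := by exact_mod_cast hq.ne'
    rw [Nat.cast_sub ha]
    push_cast
    field_simp
    ring
  rw [h2, Complex.exp_add, Complex.exp_two_pi_mul_I, mul_one]

lemma kap_lower' {J q a : ℕ} (ha : 1 ≤ a) (haq : a < q) (hJ : q ≤ 2 ^ J) :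
    √((a : ℝ) / q) ≤ kap J (ru q a) ∨ √(((q - a : ℕ) : ℝ) / q) ≤ kap J (ru q a) := by
  by_cases h : 2 * a ≤ q
  · exact Or.inl (kap_lower ha h hJ)
  · right
    have h1 := kap_lower (J := J) (q := q) (a := q - a) (by omega) (by omega) hJ
    rw [ru_sub (by omega) haq.le, kap_conj] at h1
    exact h1

/-- The test function. -/
noncomputable def tst (J : ℕ) (s : ℝ) (u : ℂ) : ℝ := ((1 + kap J u / s) ^ 4)⁻¹

lemma tst_pos {J : ℕ} {s : ℝ} (hs : 0 < s) (u : ℂ) : 0 < tst J s u := by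
  unfold tst
  have := kap_nonneg J u
  positivity

lemma tst_le_one {J : ℕ} {s : ℝ} (hs : 0 < s) (u : ℂ) : tst J s u ≤ 1 := by
  unfold tst
  have h := kap_nonneg J u
  refine inv_le_one_of_one_le₀ (one_le_pow₀ ?_)
  have : 0 ≤ kap J u / s := by positivity
  linarith

lemma tst_le {J : ℕ} {s x : ℝ} (hs : 0 < s) (hx : 0 ≤ x) {u : ℂ} (h : √x ≤ kap J u) :
    tst J s u ≤ ((1 + x / s ^ 2) ^ 2)⁻¹ := by
  unfold tst
  have h0 := Real.sqrt_nonneg x
  have h1 : √x / s ≤ kap J u / s := div_le_div_of_nonneg_right h hs.le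
  have h2 : (√x / s) ^ 2 = x / s ^ 2 := by rw [div_pow, Real.sq_sqrt hx]
  have h3 : 0 ≤ √x / s := by positivity
  have h4 : 1 + x / s ^ 2 ≤ (1 + kap J u / s) ^ 2 := by
    rw [← h2]
    nlinarith
  have h5 : 0 ≤ x / s ^ 2 := by positivity
  rw [inv_le_inv₀ (by have := kap_nonneg J u; positivity) (by positivity)]
  calc (1 + x / s ^ 2) ^ 2 ≤ ((1 + kap J u / s) ^ 2) ^ 2 := pow_le_pow_left₀ (by linarith) h4 2
    _ = _ := by ring

lemma telescope {μ : ℝ} (hμ : 0 < μ) (n : ℕ) :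
    ∑ a ∈ range n, ((1 + μ * ((a : ℝ) + 1)) ^ 2)⁻¹ ≤ μ⁻¹ * (1 - (1 + μ * n)⁻¹) := by
  induction n with
  | zero => simp
  | succ n ih =>
    rw [sum_range_succ]
    have hn : (0 : ℝ) ≤ n := Nat.cast_nonneg n
    have h1 : 0 < 1 + μ * n := by positivity
    have h2 : 0 < 1 + μ * ((n : ℝ) + 1) := by positivity
    have h3 : ((1 + μ * ((n : ℝ) + 1)) ^ 2)⁻¹ ≤
        μ⁻¹ * ((1 + μ * n)⁻¹ - (1 + μ * ((n : ℝ) + 1))⁻¹) := by
      have h4 : μ⁻¹ * ((1 + μ * n)⁻¹ - (1 + μ * ((n : ℝ) + 1))⁻¹) =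
          ((1 + μ * n) * (1 + μ * ((n : ℝ) + 1)))⁻¹ := by
        field_simp
        ring
      rw [h4, inv_le_inv₀ (by positivity) (by positivity), sq]
      exact mul_le_mul_of_nonneg_right (by nlinarith) h2.le
    push_cast
    have h5 : μ⁻¹ * (1 - (1 + μ * ((n : ℝ) + 1))⁻¹) = μ⁻¹ * (1 - (1 + μ * n)⁻¹) +
        μ⁻¹ * ((1 + μ * n)⁻¹ - (1 + μ * ((n : ℝ) + 1))⁻¹) := by ring
    rw [h5]
    linarith

lemma telescope' {μ : ℝ} (hμ : 0 < μ) (n : ℕ) :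
    ∑ a ∈ range n, ((1 + μ * ((a : ℝ) + 1)) ^ 2)⁻¹ ≤ μ⁻¹ := by
  refine (telescope hμ n).trans ?_
  have h1 : 0 ≤ (1 + μ * (n : ℝ))⁻¹ := by positivity
  have h2 : 0 ≤ μ⁻¹ := by positivity
  nlinarith

lemma sum_tst_ru {J q : ℕ} {s : ℝ} (hs : 0 < s) (hq : 0 < q) (hJ : q ≤ 2 ^ J) :
    ∑ a ∈ range q, tst J s (ru q a) ≤ 1 + 2 * q * s ^ 2 := by
  have hq' : (0 : ℝ) < q := by exact_mod_cast hq
  obtain ⟨n, rfl⟩ : ∃ n, q = n + 1 := ⟨q - 1, by omega⟩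
  rw [sum_range_succ']
  set μ : ℝ := (((n + 1 : ℕ) : ℝ) * s ^ 2)⁻¹ with hμ
  have hμpos : 0 < μ := by positivity
  have h1 : ∀ a ∈ range n, tst J s (ru (n + 1) (a + 1)) ≤
      ((1 + μ * ((a : ℝ) + 1)) ^ 2)⁻¹ + ((1 + μ * (((n - 1 - a : ℕ) : ℝ) + 1)) ^ 2)⁻¹ := by
    intro a ha
    rw [mem_range] at ha
    rcases kap_lower' (J := J) (q := n + 1) (a := a + 1) (by omega) (by omega) hJ with h | h
    · have h2 := tst_le hs (by positivity) h
      have h3 : 0 ≤ ((1 + μ * (((n - 1 - a : ℕ) : ℝ) + 1)) ^ 2)⁻¹ := by positivity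
      have h4 : (((a + 1 : ℕ) : ℝ) / ((n + 1 : ℕ) : ℝ)) / s ^ 2 = μ * ((a : ℝ) + 1) := by
        rw [hμ]; push_cast; field_simp
      rw [h4] at h2
      linarith
    · have h2 := tst_le hs (by positivity) h
      have h3 : 0 ≤ ((1 + μ * ((a : ℝ) + 1)) ^ 2)⁻¹ := by positivity
      have h5 : (n + 1 - (a + 1) : ℕ) = (n - 1 - a) + 1 := by omega
      have h4 : (((n + 1 - (a + 1) : ℕ) : ℝ) / ((n + 1 : ℕ) : ℝ)) / s ^ 2 =
          μ * (((n - 1 - a : ℕ) : ℝ) + 1) := by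
        rw [hμ, h5]; push_cast; field_simp
      rw [h4] at h2
      linarith
  have h2 : ∑ a ∈ range n, ((1 + μ * (((n - 1 - a : ℕ) : ℝ) + 1)) ^ 2)⁻¹ =
      ∑ a ∈ range n, ((1 + μ * ((a : ℝ) + 1)) ^ 2)⁻¹ :=
    sum_range_reflect (fun a => ((1 + μ * ((a : ℝ) + 1)) ^ 2)⁻¹) n
  have h3 := sum_le_sum h1
  rw [sum_add_distrib, h2] at h3
  have h4 := telescope' hμpos n
  have h5 := tst_le_one (J := J) hs (ru (n + 1) 0)
  have h6 : μ⁻¹ = ((n + 1 : ℕ) : ℝ) * s ^ 2 := by rw [hμ, inv_inv]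
  rw [h6] at h4
  linarith

end Pool.Agent.Q299.Cay
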