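import Mathlib
import Pool.Agent.Q299.Cay.Lower

/-! # Image of a character, equidistribution, and the number of characters with a given image -/

set_option linter.unusedSectionVars false

namespace Pool.Agent.Q299.Cay

open Finset

variable {G : Type*} [AddCommGroup G] [Fintype G] [DecidableEq G]

open Classical in
/-- The image of a character. -/
noncomputable def img (χ : AddChar G ℂ) : Finset ℂ := univ.image χ

/-- The number of values of a character. -/
noncomputable def nv (χ : AddChar G ℂ) : ℕ := (img χ).card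

lemma mem_img {χ : AddChar G ℂ} {u : ℂ} : u ∈ img χ ↔ ∃ g, χ g = u := by
  unfold img
  simp

lemma nv_pos (χ : AddChar G ℂ) : 0 < nv χ := by
  unfold nv
  rw [card_pos]
  exact ⟨χ 0, mem_img.mpr ⟨0, rfl⟩⟩

lemma nv_le (χ : AddChar G ℂ) : nv χ ≤ Fintype.card G := by
  unfold nv img
  exact card_image_le

lemma ne_zero' (χ : AddChar G ℂ) (g : G) : χ g ≠ 0 := by
  intro h
  have h1 : χ (g + -g) = χ g * χ (-g) := AddChar.map_add_eq_mul χ g (-g)
  rw [add_neg_cancel, AddChar.map_zero_eq_one, h, zero_mul] at h1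
  exact one_ne_zero h1

lemma pow_nv (χ : AddChar G ℂ) (g : G) : χ g ^ nv χ = 1 := by
  have h1 : ∏ v ∈ img χ, (χ g * v) = ∏ v ∈ img χ, v := by
    refine prod_bij (fun v _ => χ g * v) ?_ ?_ ?_ ?_
    · intro v hv
      obtain ⟨g', rfl⟩ := mem_img.mp hv
      exact mem_img.mpr ⟨g + g', AddChar.map_add_eq_mul χ g g'⟩
    · intro v _ v' _ h
      exact mul_left_cancel₀ (ne_zero' χ g) h
    · intro v hv
      obtain ⟨g', rfl⟩ := mem_img.mp hv
      refine ⟨χ (g' - g), mem_img.mpr ⟨_, rfl⟩, ?_⟩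
      rw [← AddChar.map_add_eq_mul]
      congr 1
      abel
    · intro v _
      rfl
  rw [prod_mul_distrib, prod_const] at h1
  have h2 : ∏ v ∈ img χ, v ≠ 0 := by
    rw [prod_ne_zero_iff]
    intro v hv
    obtain ⟨g', rfl⟩ := mem_img.mp hv
    exact ne_zero' χ g'
  exact mul_right_cancel₀ h2 (by rw [one_mul]; exact h1)

lemma two_le_nv {χ : AddChar G ℂ} (h : χ ≠ 0) : 2 ≤ nv χ := by
  by_contra hcon
  have h1 : nv χ = 1 := by have := nv_pos χ; omega
  apply h
  ext g
  have := pow_nv χ g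
  rw [h1, pow_one] at this
  rw [this]
  simp

/-- All fibres have the same number of elements. -/
lemma card_fiber (χ : AddChar G ℂ) {u : ℂ} (hu : u ∈ img χ) :
    (univ.filter fun g => χ g = u).card * nv χ = Fintype.card G := by
  classical
  have h1 : ∀ v ∈ img χ, (univ.filter fun g => χ g = v).card =
      (univ.filter fun g => χ g = u).card := by
    intro v hv
    obtain ⟨a, rfl⟩ := mem_img.mp hu
    obtain ⟨b, rfl⟩ := mem_img.mp hv
    refine card_bij (fun g _ => g + (a - b)) ?_ ?_ ?_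
    · intro g hg
      rw [mem_filter] at hg ⊢
      refine ⟨mem_univ _, ?_⟩
      rw [AddChar.map_add_eq_mul, hg.2, ← AddChar.map_add_eq_mul]
      congr 1
      abel
    · intro g _ g' _ h
      exact add_right_cancel h
    · intro g hg
      rw [mem_filter] at hg
      refine ⟨g + (b - a), ?_, by abel⟩
      rw [mem_filter]
      refine ⟨mem_univ _, ?_⟩
      rw [AddChar.map_add_eq_mul, hg.2, ← AddChar.map_add_eq_mul]
      congr 1
      abel
  have h2 := card_eq_sum_card_fiberwise (f := χ) (s := (univ : Finset G)) (t := img χ)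
    (fun g _ => mem_img.mpr ⟨g, rfl⟩)
  rw [sum_congr rfl h1, sum_const, card_univ] at h2
  rw [h2, smul_eq_mul, mul_comm]
  rfl

/-- The average of a nonnegative function over the values of a character. -/
lemma sum_char_le (χ : AddChar G ℂ) (F : ℂ → ℝ) (hF : ∀ u, 0 ≤ F u) :
    ∑ g, F (χ g) ≤ (Fintype.card G : ℝ) / nv χ * ∑ a ∈ range (nv χ), F (ru (nv χ) a) := by
  classical
  have hq := nv_pos χ
  have hq' : (0 : ℝ) < nv χ := by exact_mod_cast hq
  have h1 : ∑ g, F (χ g) = ∑ u ∈ img χ, (Fintype.card G : ℝ) / nv χ * F u := by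
    rw [← sum_fiberwise_of_maps_to (s := univ) (t := img χ) (g := χ)
      (fun g _ => mem_img.mpr ⟨g, rfl⟩)]
    refine sum_congr rfl fun u hu => ?_
    have h2 : ∀ g ∈ univ.filter (fun g => χ g = u), F (χ g) = F u := by
      intro g hg
      rw [(mem_filter.mp hg).2]
    rw [sum_congr rfl h2, sum_const, nsmul_eq_mul]
    congr 1
    rw [eq_div_iff hq'.ne']
    exact_mod_cast card_fiber χ hu
  rw [h1, ← mul_sum]
  refine mul_le_mul_of_nonneg_left ?_ (by positivity)
  have hsub : img χ ⊆ (range (nv χ)).image (fun a => ru (nv χ) a) := by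
    intro u hu
    obtain ⟨g, rfl⟩ := mem_img.mp hu
    haveI : NeZero (nv χ) := ⟨hq.ne'⟩
    obtain ⟨i, hi, hi2⟩ := (Complex.isPrimitiveRoot_exp (nv χ) hq.ne').eq_pow_of_pow_eq_one
      (pow_nv χ g)
    rw [mem_image]
    refine ⟨i, mem_range.mpr hi, ?_⟩
    rw [← hi2, ← Complex.exp_nat_mul]
    unfold ru
    congr 1
    push_cast
    ring
  calc ∑ u ∈ img χ, F u ≤ ∑ u ∈ (range (nv χ)).image (fun a => ru (nv χ) a), F u :=
        sum_le_sum_of_subset_of_nonneg hsub fun u _ _ => hF u
    _ ≤ ∑ a ∈ range (nv χ), F (ru (nv χ) a) := by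
        exact sum_image_le_of_nonneg (fun u _ => hF u)

lemma sum_tst_char {J : ℕ} {s : ℝ} (hs : 0 < s) (hJ : Fintype.card G ≤ 2 ^ J)
    (χ : AddChar G ℂ) :
    ∑ g, tst J s (χ g) ≤ (Fintype.card G : ℝ) * (1 / nv χ + 2 * s ^ 2) := by
  have hq := nv_pos χ
  have hq' : (0 : ℝ) < nv χ := by exact_mod_cast hq
  refine (sum_char_le χ (tst J s) fun u => (tst_pos hs u).le).trans ?_
  have h1 := sum_tst_ru (J := J) hs hq ((nv_le χ).trans hJ)
  calc (Fintype.card G : ℝ) / nv χ * ∑ a ∈ range (nv χ), tst J s (ru (nv χ) a)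
      ≤ (Fintype.card G : ℝ) / nv χ * (1 + 2 * nv χ * s ^ 2) :=
        mul_le_mul_of_nonneg_left h1 (by positivity)
    _ = _ := by field_simp

/-- Characters which agree on generators are equal. -/
lemma char_ext {T : Finset G} (hT : AddSubgroup.closure (T : Set G) = ⊤) {χ χ' : AddChar G ℂ}
    (h : ∀ t ∈ T, χ t = χ' t) : χ = χ' := by
  let K : AddSubgroup G :=
    { carrier := {g | χ g = χ' g}
      add_mem' := by
        intro a b ha hb
        simp only [Set.mem_ofPred_eq] at ha hb ⊢
        rw [AddChar.map_add_eq_mul, AddChar.map_add_eq_mul, ha, hb]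
      zero_mem' := by simp
      neg_mem' := by
        intro a ha
        simp only [Set.mem_ofPred_eq] at ha ⊢
        rw [AddChar.map_neg_eq_conj, AddChar.map_neg_eq_conj, ha] }
  have h1 : AddSubgroup.closure (T : Set G) ≤ K := by
    rw [AddSubgroup.closure_le]
    intro t ht
    exact h t ht
  ext g
  have h2 : g ∈ AddSubgroup.closure (T : Set G) := by rw [hT]; trivial
  exact h1 h2

lemma card_nv_eq {T : Finset G} (hT : AddSubgroup.closure (T : Set G) = ⊤) (q : ℕ) :
    (univ.filter fun χ : AddChar G ℂ => nv χ = q).card ≤ q ^ T.card := by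
  classical
  have h1 : (univ.filter fun χ : AddChar G ℂ => nv χ = q).card ≤
      (Fintype.piFinset fun _ : T => Polynomial.nthRootsFinset q (1 : ℂ)).card := by
    refine card_le_card_of_injOn (fun χ t => χ t) ?_ ?_
    · intro χ hχ
      have hχ' := (mem_filter.mp hχ).2
      rw [mem_coe, Fintype.mem_piFinset]
      intro t
      rw [Polynomial.mem_nthRootsFinset (by rw [← hχ']; exact nv_pos χ), ← hχ']
      exact pow_nv χ t
    · intro χ _ χ' _ h
      exact char_ext hT fun t ht => congrFun h ⟨t, ht⟩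
  refine h1.trans ?_
  rw [Fintype.card_piFinset, prod_const, card_univ, Fintype.card_coe]
  refine Nat.pow_le_pow_left ?_ _
  unfold Polynomial.nthRootsFinset
  exact (Multiset.toFinset_card_le _).trans (Polynomial.card_nthRoots q 1)

/-- Tail bound for a fixed character. -/
lemma card_bad {k J : ℕ} {s w : ℝ} (hs : 0 < s) (hJ : Fintype.card G ≤ 2 ^ J)
    (χ : AddChar G ℂ) :
    ((univ.filter fun Z : Fin k → G => ∑ i, kap J (χ (Z i)) < w).card : ℝ) ≤
      Real.exp (4 * w / s) * ((Fintype.card G : ℝ) * (1 / nv χ + 2 * s ^ 2)) ^ k := by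
  have h1 : ∀ Z : Fin k → G, (if ∑ i, kap J (χ (Z i)) < w then (1 : ℝ) else 0) ≤
      Real.exp (4 * w / s) * ∏ i, tst J s (χ (Z i)) := by
    intro Z
    have hpos : 0 ≤ ∏ i, tst J s (χ (Z i)) := prod_nonneg fun i _ => (tst_pos hs _).le
    split_ifs with h
    · have h2 : ∏ i, tst J s (χ (Z i)) = (∏ i, (1 + kap J (χ (Z i)) / s) ^ 4)⁻¹ := by
        unfold tst
        rw [prod_inv_distrib]
      have h3 : ∏ i, (1 + kap J (χ (Z i)) / s) ^ 4 ≤ Real.exp (4 * w / s) := by
        have h4 : ∀ i ∈ (univ : Finset (Fin k)), (1 + kap J (χ (Z i)) / s) ^ 4 ≤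
            Real.exp (4 * (kap J (χ (Z i)) / s)) := by
          intro i _
          have h5 : 0 ≤ kap J (χ (Z i)) / s := div_nonneg (kap_nonneg _ _) hs.le
          have h6 : 1 + kap J (χ (Z i)) / s ≤ Real.exp (kap J (χ (Z i)) / s) := by
            have := Real.add_one_le_exp (kap J (χ (Z i)) / s)
            linarith
          calc (1 + kap J (χ (Z i)) / s) ^ 4 ≤ (Real.exp (kap J (χ (Z i)) / s)) ^ 4 :=
                pow_le_pow_left₀ (by linarith) h6 4
            _ = _ := by rw [← Real.exp_nat_mul]; norm_num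
        refine (prod_le_prod (fun i _ => ?_) h4).trans ?_
        · have : 0 ≤ kap J (χ (Z i)) / s := div_nonneg (kap_nonneg _ _) hs.le
          positivity
        · rw [← Real.exp_sum]
          apply Real.exp_le_exp.mpr
          rw [← mul_sum, ← sum_div, mul_div_assoc]
          have := div_le_div_of_nonneg_right h.le hs.le
          linarith
      have h7 : 0 < ∏ i, (1 + kap J (χ (Z i)) / s) ^ 4 := by
        refine prod_pos fun i _ => ?_
        have : 0 ≤ kap J (χ (Z i)) / s := div_nonneg (kap_nonneg _ _) hs.le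
        positivity
      rw [h2, ← div_eq_mul_inv, one_le_div h7]
      exact h3
    · positivity
  have h2 : ((univ.filter fun Z : Fin k → G => ∑ i, kap J (χ (Z i)) < w).card : ℝ) ≤
      ∑ Z : Fin k → G, Real.exp (4 * w / s) * ∏ i, tst J s (χ (Z i)) := by
    rw [← sum_boole]
    exact sum_le_sum fun Z _ => h1 Z
  refine h2.trans ?_
  rw [← mul_sum]
  refine mul_le_mul_of_nonneg_left ?_ (Real.exp_pos _).le
  have h3 : ∑ Z : Fin k → G, ∏ i, tst J s (χ (Z i)) = (∑ g, tst J s (χ g)) ^ k := by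
    rw [Fintype.sum_pow]
  rw [h3]
  exact pow_le_pow_left₀ (sum_nonneg fun g _ => (tst_pos hs _).le) (sum_tst_char hs hJ χ) k

end Pool.Agent.Q299.Cay
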