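import Mathlib
import Pool.Agent.Q299.Cay.Count

/-! # Union bound over the characters -/

set_option linter.unusedSectionVars false

namespace Pool.Agent.Q299.Cay

open Finset

variable {G : Type*} [AddCommGroup G] [Fintype G] [DecidableEq G]

lemma sum_inv_nv {T : Finset G} (hT : AddSubgroup.closure (T : Set G) = ⊤) {k : ℕ}
    (hk : T.card + 2 ≤ k) :
    ∑ χ ∈ univ.erase (0 : AddChar G ℂ), (1 / (nv χ : ℝ)) ^ k ≤ 4 * (1 / 2) ^ (k - T.card) := by
  classical
  obtain ⟨m, hm⟩ : ∃ m, k = T.card + (m + 2) := ⟨k - T.card - 2, by omega⟩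
  have hmk : k - T.card = m + 2 := by omega
  rw [hmk]
  have hmaps : ∀ χ ∈ univ.erase (0 : AddChar G ℂ), nv χ ∈ Ioc 1 (Fintype.card G) := by
    intro χ hχ
    rw [mem_Ioc]
    have h1 := two_le_nv (ne_of_mem_erase hχ)
    exact ⟨by omega, nv_le χ⟩
  rw [← sum_fiberwise_of_maps_to hmaps]
  have h1 : ∀ q ∈ Ioc 1 (Fintype.card G),
      ∑ χ ∈ (univ.erase (0 : AddChar G ℂ)).filter (fun χ => nv χ = q), (1 / (nv χ : ℝ)) ^ k ≤
        (1 / 2) ^ m * ((q : ℝ) ^ 2)⁻¹ := by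
    intro q hq
    rw [mem_Ioc] at hq
    have hq0 : (0 : ℝ) < q := by
      have : 0 < q := by omega
      exact_mod_cast this
    have hq2 : (2 : ℝ) ≤ q := by
      have : 2 ≤ q := by omega
      exact_mod_cast this
    have h2 : ∀ χ ∈ (univ.erase (0 : AddChar G ℂ)).filter (fun χ => nv χ = q),
        (1 / (nv χ : ℝ)) ^ k = (1 / (q : ℝ)) ^ k := by
      intro χ hχ
      rw [(mem_filter.mp hχ).2]
    rw [sum_congr rfl h2, sum_const, nsmul_eq_mul]
    have h3 : ((univ.erase (0 : AddChar G ℂ)).filter (fun χ => nv χ = q)).card ≤ q ^ T.card :=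
      (card_le_card (filter_subset_filter _ (erase_subset _ _))).trans (card_nv_eq hT q)
    have h3' : ((((univ.erase (0 : AddChar G ℂ)).filter (fun χ => nv χ = q)).card : ℕ) : ℝ) ≤
        (q : ℝ) ^ T.card := by exact_mod_cast h3
    calc _ ≤ (q : ℝ) ^ T.card * (1 / (q : ℝ)) ^ k :=
          mul_le_mul_of_nonneg_right h3' (by positivity)
      _ = (1 / (q : ℝ)) ^ m * ((q : ℝ) ^ 2)⁻¹ := by
          rw [hm, pow_add, pow_add, one_div, inv_pow, inv_pow, inv_pow, ← mul_assoc,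
            mul_inv_cancel₀ (by positivity), one_mul]
      _ ≤ (1 / 2) ^ m * ((q : ℝ) ^ 2)⁻¹ := by
          refine mul_le_mul_of_nonneg_right ?_ (by positivity)
          refine pow_le_pow_left₀ (by positivity) ?_ m
          exact one_div_le_one_div_of_le (by norm_num) hq2
  refine (sum_le_sum h1).trans ?_
  rw [← mul_sum]
  have h2 : ∑ q ∈ Ioc 1 (Fintype.card G), ((q : ℝ) ^ 2)⁻¹ ≤ 1 := by
    have h3 : 1 ≤ Fintype.card G := Fintype.card_pos
    have := sum_Ioc_inv_sq_le_sub (α := ℝ) (k := 1) (n := Fintype.card G) one_ne_zero h3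
    refine this.trans ?_
    have h4 : (0 : ℝ) ≤ ((Fintype.card G : ℕ) : ℝ)⁻¹ := by positivity
    push_cast
    linarith
  calc (1 / 2 : ℝ) ^ m * ∑ q ∈ Ioc 1 (Fintype.card G), ((q : ℝ) ^ 2)⁻¹ ≤ (1 / 2) ^ m * 1 :=
        mul_le_mul_of_nonneg_left h2 (by positivity)
    _ = 4 * (1 / 2) ^ (m + 2) := by rw [pow_add]; ring

/-- The probability that some nontrivial character has a small kernel sum. -/
lemma union_bound {T : Finset G} (hT : AddSubgroup.closure (T : Set G) = ⊤) {k J : ℕ}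
    (hk : T.card + 2 ≤ k) (hJ : Fintype.card G ≤ 2 ^ J) {s w p c₁ : ℝ} (hs : 0 < s)
    (hp : 0 < p) (hpk : p ^ k = Fintype.card G) (hc : 0 < c₁) (hsc : 2 * s ^ 2 = c₁ / p) :
    ((univ.filter fun Z : Fin k → G =>
      ∃ χ : AddChar G ℂ, χ ≠ 0 ∧ ∑ i, kap J (χ (Z i)) < w).card : ℝ) ≤
      (Fintype.card G : ℝ) ^ k * (Real.exp (4 * w / s) *
        ((1 + 4 * c₁) ^ k * (4 * (1 / 2) ^ (k - T.card)) + (1 / 4 + c₁) ^ k)) := by
  classical
  have hN : (0 : ℝ) < Fintype.card G := by exact_mod_cast Fintype.card_pos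
  have h1 : (univ.filter fun Z : Fin k → G =>
      ∃ χ : AddChar G ℂ, χ ≠ 0 ∧ ∑ i, kap J (χ (Z i)) < w) ⊆
      (univ.erase (0 : AddChar G ℂ)).biUnion fun χ =>
        univ.filter fun Z : Fin k → G => ∑ i, kap J (χ (Z i)) < w := by
    intro Z hZ
    obtain ⟨χ, h1, h2⟩ := (mem_filter.mp hZ).2
    rw [mem_biUnion]
    exact ⟨χ, mem_erase.mpr ⟨h1, mem_univ _⟩, mem_filter.mpr ⟨mem_univ _, h2⟩⟩
  have h2 : ((univ.filter fun Z : Fin k → G =>
      ∃ χ : AddChar G ℂ, χ ≠ 0 ∧ ∑ i, kap J (χ (Z i)) < w).card : ℝ) ≤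
      ∑ χ ∈ univ.erase (0 : AddChar G ℂ),
        ((univ.filter fun Z : Fin k → G => ∑ i, kap J (χ (Z i)) < w).card : ℝ) := by
    exact_mod_cast (card_le_card h1).trans card_biUnion_le
  have h3 : ∀ χ ∈ univ.erase (0 : AddChar G ℂ),
      ((univ.filter fun Z : Fin k → G => ∑ i, kap J (χ (Z i)) < w).card : ℝ) ≤
      (Fintype.card G : ℝ) ^ k * Real.exp (4 * w / s) *
        ((1 + 4 * c₁) ^ k * (1 / (nv χ : ℝ)) ^ k + ((1 / 4 + c₁) / p) ^ k) := by
    intro χ _
    have hq' : (0 : ℝ) < nv χ := by exact_mod_cast nv_pos χ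
    refine (card_bad hs hJ χ).trans ?_
    rw [mul_pow, hsc]
    have h4 : (1 / (nv χ : ℝ) + c₁ / p) ^ k ≤
        (1 + 4 * c₁) ^ k * (1 / (nv χ : ℝ)) ^ k + ((1 / 4 + c₁) / p) ^ k := by
      by_cases hcase : (nv χ : ℝ) ≤ 4 * p
      · have h5 : 1 / (nv χ : ℝ) + c₁ / p ≤ (1 + 4 * c₁) * (1 / (nv χ : ℝ)) := by
          have h6 : c₁ / p ≤ 4 * c₁ * (1 / (nv χ : ℝ)) := by
            rw [mul_one_div, div_le_div_iff₀ hp hq']
            nlinarith
          linarith
        have h7 : (1 / (nv χ : ℝ) + c₁ / p) ^ k ≤ ((1 + 4 * c₁) * (1 / (nv χ : ℝ))) ^ k :=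
          pow_le_pow_left₀ (by positivity) h5 k
        rw [mul_pow] at h7
        have h8 : 0 ≤ ((1 / 4 + c₁) / p) ^ k := by positivity
        linarith
      · push Not at hcase
        have h5 : 1 / (nv χ : ℝ) + c₁ / p ≤ (1 / 4 + c₁) / p := by
          have h6 : 1 / (nv χ : ℝ) ≤ 1 / (4 * p) :=
            one_div_le_one_div_of_le (by positivity) hcase.le
          have h7 : 1 / (4 * p) = (1 / 4) / p := by field_simp
          rw [add_div]
          linarith
        have h7 : (1 / (nv χ : ℝ) + c₁ / p) ^ k ≤ ((1 / 4 + c₁) / p) ^ k :=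
          pow_le_pow_left₀ (by positivity) h5 k
        have h8 : 0 ≤ (1 + 4 * c₁) ^ k * (1 / (nv χ : ℝ)) ^ k := by positivity
        linarith
    calc Real.exp (4 * w / s) * ((Fintype.card G : ℝ) ^ k * (1 / (nv χ : ℝ) + c₁ / p) ^ k)
        ≤ Real.exp (4 * w / s) * ((Fintype.card G : ℝ) ^ k *
          ((1 + 4 * c₁) ^ k * (1 / (nv χ : ℝ)) ^ k + ((1 / 4 + c₁) / p) ^ k)) := by
          refine mul_le_mul_of_nonneg_left ?_ (Real.exp_pos _).le
          exact mul_le_mul_of_nonneg_left h4 (by positivity)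
      _ = _ := by ring
  refine h2.trans ((sum_le_sum h3).trans ?_)
  rw [← mul_sum, sum_add_distrib, ← mul_sum, sum_const, nsmul_eq_mul, mul_assoc]
  refine mul_le_mul_of_nonneg_left ?_ (by positivity)
  refine mul_le_mul_of_nonneg_left ?_ (Real.exp_pos _).le
  refine add_le_add (mul_le_mul_of_nonneg_left (sum_inv_nv hT hk) (by positivity)) ?_
  have h5 : ((univ.erase (0 : AddChar G ℂ)).card : ℝ) ≤ Fintype.card G := by
    have h6 : (univ.erase (0 : AddChar G ℂ)).card ≤ Fintype.card (AddChar G ℂ) := by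
      rw [← card_univ]
      exact card_erase_le
    rw [AddChar.card_eq] at h6
    exact_mod_cast h6
  calc ((univ.erase (0 : AddChar G ℂ)).card : ℝ) * ((1 / 4 + c₁) / p) ^ k
      ≤ (Fintype.card G : ℝ) * ((1 / 4 + c₁) / p) ^ k :=
        mul_le_mul_of_nonneg_right h5 (by positivity)
    _ = _ := by
        rw [div_pow, hpk]
        field_simp

end Pool.Agent.Q299.Cay
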